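import Pool.Agent.H104.ML.Res
import Pool.Agent.H104.ML.Est
import Pool.Agent.Q121.ML.PARS
import Pool.Agent.Q144.ML_DET
import Pool.Agent.Q79.ML.RES2
import Pool.Agent.Q25.ML.CYC
import Pool.Agent.Q164.ML.SEC
import Pool.Agent.Q164.ML.EDB
import Pool.Agent.Q164.ML.ID
import Pool.Agent.Q176.ML.DGA
import Pool.Agent.Q176.ML.CELL
import Pool.Agent.Q149.ML.PAT
import Pool.Agent.Q162.ML.VOL
import Pool.Agent.Q162.ML.CORE2
import Pool.Agent.Q299.ML.LEAD
import Pool.Agent.Q299.ML.GRP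
import Pool.Agent.Q299.ML.CONJ
import Pool.Agent.Q299.ML.RES1
import Pool.Agent.Q186.ML.REAL
import Pool.Agent.Q186.ML.CORE
import Pool.Agent.Q208.ML.KILL
import Pool.Agent.Q210.ML.CHEB
import Pool.Agent.Q210.ML.RED
import Pool.Agent.Q166.ML.MA
import Pool.Agent.Q166.ML.MC
import Pool.Agent.Q223.ML.EDA
import Pool.Agent.Q223.ML.DGB
import Pool.Agent.Q223.ML.PERZ
import Pool.Agent.Q211.ML.FLO
import Pool.Agent.Q211.ML.SSD

/-!
# MP_72eb9b_nt: the order of vanishing at `1` of polynomials with coefficients `-1, 0, 1`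

`M n` is the maximal order of vanishing at `1` of a nonzero polynomial of degree `≤ n` with coefficients in
`{-1, 0, 1}`.  Known: `c₁ sqrt(n / log (n+1)) ≤ M n ≤ c₂ sqrt n`.  Here: `M n ≥ c sqrt(n log log n / log n)`, so the
known lower bound does not give the order of magnitude: `M n ≤ C sqrt(n / log (n+1))` fails for every `C`.

The complete paper proof is in `Pool/Agent/H104/ML/Stm.lean`.  In short: a pigeonhole (volume) argument for the
multiples of `g = ∏_b Φ_b^(μ_b)`, `μ_1 = m`, gives a multiple with coefficients `-1, 0, 1` of degree `< n` as soon as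
`n` is at least a constant times `deg g` and the energy of `g`, a quadratic form in the `μ_b` built from
resultants of cyclotomic polynomials.  For `μ_b = 0`, `b > 1`, the energy is `m² log m` (the known bound); with
`μ_b ≈ (m/b) (1 - lv(b)/J)` it is a Dirichlet form and becomes `O(m² log m / log log m)`.
-/

set_option autoImplicit false

open Filter Polynomial

namespace Pool.Agent.Results.MP_72eb9b_nt.LogLogImprovement

open Pool.Agent.H104.ML

/-- The polynomials of degree at most `n` with coefficients in `{-1, 0, 1}`. -/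
def IsF (n : ℕ) (p : ℤ[X]) : Prop :=
  p.natDegree ≤ n ∧ ∀ j, p.coeff j = -1 ∨ p.coeff j = 0 ∨ p.coeff j = 1

/-- The maximal order of vanishing at `1` of a nonzero polynomial of degree at most `n` with
coefficients in `{-1, 0, 1}`. -/
noncomputable def M (n : ℕ) : ℕ := sSup {k : ℕ | ∃ p : ℤ[X], p ≠ 0 ∧ IsF n p ∧ (X - 1 : ℤ[X]) ^ k ∣ p}

theorem s_vol : S_VOL :=
  Pool.Agent.Q162.ML.t_VOL (Pool.Agent.Q176.ML.t_CELL Pool.Agent.Q149.ML.t_PAT Pool.Agent.Q164.ML.t_SEC)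
    Pool.Agent.Q121.ML.t_PARS

theorem s_core : S_CORE :=
  Pool.Agent.Q186.ML.t_CORE s_vol Pool.Agent.Q210.ML.t_RED
    (Pool.Agent.Q144.ML.t_DET Pool.Agent.Q299.ML.t_LEAD) (Pool.Agent.Q208.ML.t_KILL Pool.Agent.Q299.ML.t_LEAD)
    Pool.Agent.Q186.ML.t_REAL (Pool.Agent.Q299.ML.t_CONJ Pool.Agent.Q299.ML.t_GRP) Pool.Agent.Q210.ML.t_CHEB

theorem s_core2 : S_CORE2 :=
  Pool.Agent.Q162.ML.t_CORE2 s_core Pool.Agent.Q299.ML.t_RES1 Pool.Agent.Q79.ML.t_RES2
    (Pool.Agent.Q25.ML.t_CYC Pool.Agent.Q299.ML.t_GRP) Pool.Agent.Q223.ML.t_PERZ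

theorem s_est : S_EST :=
  t_EST Pool.Agent.Q164.ML.t_ID
    (t_EDG Pool.Agent.Q211.ML.t_FLO (Pool.Agent.Q223.ML.t_EDA Pool.Agent.Q166.ML.t_MC)
      (Pool.Agent.Q164.ML.t_EDB Pool.Agent.Q166.ML.t_MB Pool.Agent.Q166.ML.t_MC))
    (t_DG Pool.Agent.Q211.ML.t_FLO (Pool.Agent.Q176.ML.t_DGA Pool.Agent.Q166.ML.t_MA Pool.Agent.Q211.ML.t_FLO)
      (Pool.Agent.Q223.ML.t_DGB Pool.Agent.Q166.ML.t_MC))
    Pool.Agent.Q211.ML.t_SSD

/-- (1) For an absolute constant `c > 0` and all `n ≥ 3`, `M n ≥ c sqrt(n log log n / log n)`.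
(2) There is no constant `C` with `M n ≤ C sqrt(n / log (n+1))` for all sufficiently large `n`. -/
theorem result :
    (∃ c : ℝ, 0 < c ∧ ∀ n : ℕ, 3 ≤ n →
      c * Real.sqrt (n * Real.log (Real.log n) / Real.log n) ≤ (M n : ℝ)) ∧
    ¬ ∃ C : ℝ, ∀ᶠ n : ℕ in atTop, (M n : ℝ) ≤ C * Real.sqrt (n / Real.log (n + 1)) :=
  res s_core2 s_est Pool.Agent.Q211.ML.t_SSD

end Pool.Agent.Results.MP_72eb9b_nt.LogLogImprovement
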